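import Mathlib
import Pool.Agent.Work.MP_4329d7_ag_wrc.RelFinal

/-!
Mumford's conjecture with explicit exponents for nondegenerate complete intersections in tori (any
Newton polytopes, any number of equations), and their maximal rationally connected quotients.

Let `X` be such a complete intersection in the torus of dimension `d` with function field `K` and
let `B = 2 (d + 1) ^ ((d + 1) 2 ^ d)`. If `X` has no nonzero regular sections of
`(Ω ^ j) ^ {⊗ m}` for `1 ≤ m ≤ B`, `1 ≤ j ≤ dim X` then `K` is rationally connected. In general there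
is a toric quotient `X ⇢ Z` with function field `L = ℂ(x ^ χ)` such that `K` is rationally connected
over `L`, `L` is not uniruled and has a nonzero regular section of `(Ω ^ p) ^ {⊗ m}`, `p = dim Z`,
`1 ≤ m ≤ B`.
-/

namespace Pool.Agent.Results.MP_4329d7_ag.NondegenerateIntersections

open Pool.Agent.Work.MP_4329d7_ag.FF Pool.Agent.Work.Uni Pool.Agent.Work.CI Pool.Agent.Work.WRC

theorem result (d : ℕ) (K : Type) [Field K] [Algebra ℂ K] [Algebra.EssFiniteType ℂ K] (n : ℕ)
    (Q : Type) [Fintype Q] (x : Fin d → K) (f : Q → Lau d) (hf : Nondegenerate f)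
    (hx : ∀ j, x j ≠ 0) (hgen : IntermediateField.adjoin ℂ (Set.range x) = ⊤)
    (heq : ∀ q, ev (f q) x = 0) (htr : Algebra.trdeg ℂ K = n) (hn : n + Fintype.card Q = d) :
    ((∀ m, 0 < m → m ≤ 2 * (d + 1) ^ ((d + 1) * 2 ^ d) → ∀ j, 1 ≤ j → j ≤ n →
        ∀ T : TensorForm K (m * j), IsPluricanonical m j T → IsRegular T → T = 0) →
      RationallyConnected K) ∧
    ∃ (e : ℕ) (χ : Fin e → Fin d → ℤ), LinearIndependent ℤ χ ∧ RCOver (subF x χ) ∧
      ¬ Uniruled (subF x χ) ∧ ∃ (p m : ℕ), Algebra.trdeg ℂ (subF x χ) = p ∧ 0 < m ∧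
        m ≤ 2 * (d + 1) ^ ((d + 1) * 2 ^ d) ∧
        ∃ T : TensorForm (subF x χ) (m * p), IsPluricanonical m p T ∧ IsRegular T ∧ T ≠ 0 :=
  ⟨main_rc d K n Q x f hf hx hgen heq htr hn, mrc_main d K n Q x f hf hx hgen heq htr hn⟩

end Pool.Agent.Results.MP_4329d7_ag.NondegenerateIntersections
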