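import Mathlib
import Pool.Agent.Work.MP_4329d7_ag_sq.Two

/-!
Vanishing of tensor differentials implies rational connectedness for the fields generated over
`ℂ(x_1, …, x_n)` by `N`-th roots of products of one-variable polynomials without three-point
branching: the function fields of the quotients of products of curves by finite abelian groups
acting diagonally, with rational quotient curves.
-/

namespace Pool.Agent.Results.MP_4329d7_ag.ProductQuotients

open Polynomial Pool.Agent.Work.MP_4329d7_ag.FF Pool.Agent.Work.MP_4329d7_ag_sq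

theorem result (K : Type) [Field K] [Algebra ℂ K] [Algebra.EssFiniteType ℂ K]
    (N n : ℕ) (hN : 0 < N) (x : Fin n → K) (hx : AlgebraicIndependent ℂ x)
    (S : Submonoid (K × (Fin n → ℂ[X])))
    (hS : ∀ p ∈ S, (∀ i, p.2 i ≠ 0) ∧ p.1 ^ N = ∏ i, aeval (x i) (p.2 i))
    (hgen : IntermediateField.adjoin ℂ (Set.range x ∪ {z | ∃ f, (z, f) ∈ S}) = ⊤)
    (htri : N = 2 ∨ ∀ p ∈ S, ∀ i, {X : Option ℂ | BranchAt N (p.2 i) X}.ncard ≠ 3)
    (hvan : ∀ j, 1 ≤ j → j ≤ n → ∀ T : TensorForm K (2 * j), IsRegular T → T = 0) :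
    RationallyConnected K := by
  have hset : {z : K | ∃ f, (z, f) ∈ S} = Prod.fst '' (S : Set (K × (Fin n → ℂ[X]))) := by
    ext z
    constructor
    · rintro ⟨f, hf⟩
      exact ⟨(z, f), hf, rfl⟩
    · rintro ⟨p, hp, rfl⟩
      exact ⟨p.2, hp⟩
  rw [hset] at hgen
  refine main_rad inferInstance (N := N) (S := S) ⟨hN, hx, hS, hgen, ?_⟩ hvan
  rcases htri with rfl | h
  · intro p hp i h3
    have h4 := ncard_branch_two ((hS p hp).1 i)
    rw [h3] at h4
    exact absurd h4 (by decide)
  · exact h

end Pool.Agent.Results.MP_4329d7_ag.ProductQuotients
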