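import Mathlib
import Pool.Agent.Work.MP_4329d7_ag_emb.MainSnc
import Pool.Agent.Work.MP_4329d7_ag_emb.MrcMain

/-!
Explicit exponents for tensor forms on abelian covers of products of projective spaces branched
along simple normal crossing divisors. Let `K` be the function field of an abelian cover `X` of a
product of projective spaces of total dimension `m`, branched along a simple normal crossing divisor
with components of arbitrary multidegrees.

1. The maximal rationally connected fibration of `X` is given by the projection to the product of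
the factors in a set `J`: if `L` is the algebraic closure in `K` of the field of this product, of
dimension `j`, then `K` is rationally connected over `L` and `L` is not uniruled. For one
`M ≤ (7 * m) ^ (3 * 8 ^ m)` the field `L` has nonzero `l * M`-fold `j`-forms for all `l > 0`.

2. If for each `M` with `0 < M ≤ (7 * m) ^ (3 * 8 ^ m)` there is a multiple `l * M` such that the
regular sections of `(Ω^j)^{⊗ l * M}` are zero for all `j` between `1` and `m` then `K` is rationally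
connected.
-/

namespace Pool.Agent.Results.MP_4329d7_ag.SncTensorForms

open Pool.Agent.Work.MP_4329d7_ag.FF Pool.Agent.Work.Uni Pool.Agent.Work.WRC MvPolynomial

theorem result (m : ℕ) (hm0 : 0 < m)
    (K : Type) [Field K] [Algebra ℂ K] [Algebra.EssFiniteType ℂ K]
    (I : Type) [Fintype I] [DecidableEq I] (n : I → ℕ) (hn : ∀ i, 0 < n i) (hm : ∑ i, n i = m)
    (E : Type) [Fintype E] (F : E → MvPolynomial (Σ i, Fin (n i + 1)) ℂ) (d : E → I → ℕ)
    (hF : ∀ e i, (F e).IsWeightedHomogeneous (fun s => if s.1 = i then 1 else 0) (d e i))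
    (hsnc : ∀ P : (Σ i, Fin (n i + 1)) → ℂ, (∀ i, ∃ j, P ⟨i, j⟩ ≠ 0) →
      LinearIndependent ℂ (fun e : {e // eval P (F e) = 0} => fun s => eval P (pderiv s (F e.1))))
    (hne : ∀ e, ∃ P : (Σ i, Fin (n i + 1)) → ℂ, (∀ i, ∃ j, P ⟨i, j⟩ ≠ 0) ∧ eval P (F e) = 0)
    (x : (i : I) → Fin (n i) → K)
    (hx : AlgebraicIndependent ℂ (fun p : Σ i, Fin (n i) => x p.1 p.2))
    (N : ℕ) (hN : 0 < N) (S : Set (K × (E → ℕ)))
    (hrad : ∀ z c, (z, c) ∈ S → z ^ N = ∏ e, aeval (fun s : Σ i, Fin (n i + 1) =>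
      (Fin.cons 1 (x s.1) : Fin (n s.1 + 1) → K) s.2) (F e) ^ c e)
    (hdeg : ∀ z c, (z, c) ∈ S → ∀ i, N ∣ ∑ e, c e * d e i)
    (hgen : IntermediateField.adjoin ℂ
      (Set.range (fun p : Σ i, Fin (n i) => x p.1 p.2) ∪ {z | ∃ c, (z, c) ∈ S}) = ⊤)
    (hbr : ∀ e, ∃ z c, (z, c) ∈ S ∧ ¬ N ∣ c e) :
    (∃ (J : Finset I) (L : IntermediateField ℂ K),
      (∀ y, y ∈ L ↔ IsAlgebraic (IntermediateField.adjoin ℂ {w | ∃ i ∈ J, ∃ j, w = x i j}) y) ∧
      RCOver L ∧ ¬ Uniruled L ∧ Algebra.trdeg ℂ L = (∑ i ∈ J, n i : ℕ) ∧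
      ∃ M, 0 < M ∧ M ≤ (7 * m) ^ (3 * 8 ^ m) ∧ ∀ l, 0 < l →
        ∃ T : TensorForm L (l * M * ∑ i ∈ J, n i),
          IsPluricanonical (l * M) (∑ i ∈ J, n i) T ∧ IsRegular T ∧ T ≠ 0) ∧
    ((∀ M, 0 < M → M ≤ (7 * m) ^ (3 * 8 ^ m) → ∃ l, 0 < l ∧ ∀ j, 1 ≤ j → j ≤ m →
      ∀ T : TensorForm K (l * M * j), IsPluricanonical (l * M) j T → IsRegular T → T = 0) →
      RationallyConnected K) := by
  classical
  have D : Pool.Agent.Work.Snc.SncData K I n E F d N x S :=
    ⟨hN, hn, hF, hsnc, hne, hx, hrad, hdeg, hgen, hbr⟩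
  refine ⟨?_, Pool.Agent.Work.Emb.rc_snc m hm0 K I n E F d N x S D hm⟩
  obtain ⟨J, h1, h2, h3, h4⟩ := Pool.Agent.Work.Emb.mrc_snc m hm0 K I n E F d N x S D hm.le
  exact ⟨J, Pool.Agent.Work.RP.KJ x J, fun y => Pool.Agent.Work.RP.mem_KJ x J y, h1, h2, h3, h4⟩

end Pool.Agent.Results.MP_4329d7_ag.SncTensorForms
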