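import Pool.Agent.Work.MP_4329d7_ag.GMain

/-!
# The exponents needed in Mumford's conjecture grow doubly exponentially with the dimension

Function fields over `ℂ` are used in place of smooth projective varieties. The definitions
`TensorForm`, `IsRegularAt`, `IsRegular` and `RationallyConnected` are in
`Pool/Agent/Work/MP_4329d7_ag/FDefs.lean`, the definitions `OrdersExactly` and `Suffices` in
`Pool/Agent/Work/MP_4329d7_ag/GMain.lean`: the regular tensor forms of order `m` on the function
field of a smooth projective variety `X` are the sections of the `m`-th tensor power of its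
cotangent bundle.
-/

namespace Pool.Agent.Results.MP_4329d7_ag.UnitFractions

open Pool.Agent.Work.MP_4329d7_ag.FF Nat

/-- (1) Let `1 = ∑ j, 1 / b j + 1 / P` be a decomposition with `ℓ` unit fractions `1 / b j`, let
`Q ∣ P`, and let `D ≥ n ≥ 2 ℓ + 2` (or `n = 2 ℓ + 1` if `Q` is odd). There is a finitely generated
field over `ℂ` of transcendence degree `D` which is not rationally connected and has a nonzero
regular tensor form of order `m` exactly for the multiples `m` of `n * Q`.

(2) In particular, if `3 ≤ n ≤ D`, this happens for the multiples of `n * P` with some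
`P ≥ 2 ^ (2 ^ ⌊(n - 3) / 2⌋ - 1)`.

(3) In particular, if `1 ≤ n ≤ D` and `1 ≤ N ≤ ⌊(n + 2) / 4⌋!`, this happens for the multiples
of `n * N`.

(4) If `M` is a set of exponents such that in dimension `D` the vanishing of the regular tensor
forms of all positive orders in `M` implies rational connectedness, or only implies the vanishing
of the regular tensor forms of all positive orders, then `M` contains a positive multiple of each
of these numbers. -/
theorem result :
    (∀ (J : Type) [Fintype J] (b : J → ℕ) (P Q n D : ℕ), (∀ j, 0 < b j) → 0 < P →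
      ∑ j, (1 : ℚ) / b j + 1 / P = 1 → Q ∣ P → 2 * Fintype.card J + 1 ≤ n →
      (Odd Q ∨ 2 * Fintype.card J + 2 ≤ n) → n ≤ D → OrdersExactly D (n * Q)) ∧
    (∀ n D : ℕ, 3 ≤ n → n ≤ D →
      ∃ P, 2 ^ (2 ^ ((n - 3) / 2) - 1) ≤ P ∧ OrdersExactly D (n * P)) ∧
    (∀ N n D : ℕ, 1 ≤ n → 1 ≤ N → N ≤ ((n + 2) / 4)! → n ≤ D → OrdersExactly D (n * N)) ∧
    ∀ (D : ℕ) (M : Set ℕ), Suffices D M →
      ∀ r, 0 < r → OrdersExactly D r → ∃ m ∈ M, 0 < m ∧ r ∣ m := by
  refine ⟨fun J _ b P Q n D => ordersExactly_unit J b P Q n D, ordersExactly_large, ?_,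
    fun D M hM r hr h => hM.exists_dvd hr h⟩
  intro N n D hn hN hNn hD
  rcases Nat.eq_zero_or_pos ((n + 2) / 4) with h0 | h0
  · rw [h0] at hNn
    have hN1 : N = 1 := le_antisymm hNn hN
    subst hN1
    exact ordersExactly_unit (Fin 0) (fun _ => 1) 1 1 n D (fun _ => one_pos) one_pos (by simp)
      dvd_rfl (by simpa using hn) (Or.inl odd_one) hD
  · exact ordersExactly_factorial ((n + 2) / 4) N n D h0 hN hNn (by omega) hD

end Pool.Agent.Results.MP_4329d7_ag.UnitFractions
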